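import Pool.Agent.H78.Dom.Tile

/-!
# The seeded domino problem on the quadrant: final forms
-/

set_option autoImplicit false

namespace Pool.Agent.H78.Dom

open Function Pool.Agent.H83

/-- For every r.e. set there is a finite set of tiles with two special tiles `s`, `m` such that
`n` is not in the set iff the quadrant has a tiling with `s` at `(0, 0)` and `m` at `(n + 1, 0)`. -/
theorem exists_tiles {p : ℕ → Prop} (hp : REPred p) :
    ∃ (T : Type) (_ : Fintype T) (_ : DecidableEq T) (s m : T) (H V : T → T → Prop), s ≠ m ∧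
      ∀ n, ¬ p n ↔ ∃ D : ℕ → ℕ → T, D 0 0 = s ∧ D (n + 1) 0 = m ∧
        (∀ i j, H (D i j) (D (i + 1) j)) ∧ ∀ i j, V (D i j) (D i (j + 1)) := by
  obtain ⟨ins, N, R, q₀, hq₀, -, hB, hR, h⟩ := exists_machine hp
  refine ⟨Tl N R, inferInstance, Classical.decEq _, .inl 0, .inl 1, Hr, Vr ins q₀, by simp, ?_⟩
  intro n
  rw [h n]
  push Not
  exact (tiling_iff hq₀ hB hR).symm

/-- The same with numbers as tiles: `0` is the seed and `1` is the mark. -/
theorem exists_tiles_nat {p : ℕ → Prop} (hp : REPred p) :
    ∃ (k : ℕ) (H V : Finset (ℕ × ℕ)), ∀ n, ¬ p n ↔ ∃ D : ℕ → ℕ → ℕ, (∀ i j, D i j < k) ∧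
      D 0 0 = 0 ∧ D (n + 1) 0 = 1 ∧ (∀ i j, (D i j, D (i + 1) j) ∈ H) ∧
        ∀ i j, (D i j, D i (j + 1)) ∈ V := by
  classical
  obtain ⟨T, hT, hT', s, m, H, V, hsm, h⟩ := exists_tiles hp
  -- a numbering with `s ↦ 0` and `m ↦ 1`
  obtain ⟨e, he, hes, hem⟩ : ∃ e : T → ℕ, Injective e ∧ e s = 0 ∧ e m = 1 := by
    refine ⟨fun t => if t = s then 0 else if t = m then 1 else
      (Fintype.equivFin T t : ℕ) + 2, ?_, by simp, by simp [hsm.symm]⟩
    intro a b hab
    dsimp only at hab
    by_cases h1 : a = s
    · by_cases h2 : b = s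
      · rw [h1, h2]
      · rw [if_pos h1, if_neg h2] at hab
        split_ifs at hab
    · rw [if_neg h1] at hab
      by_cases h2 : b = s
      · rw [if_pos h2] at hab
        split_ifs at hab
      · rw [if_neg h2] at hab
        by_cases h3 : a = m
        · rw [if_pos h3] at hab
          by_cases h4 : b = m
          · rw [h3, h4]
          · rw [if_neg h4] at hab
            omega
        · rw [if_neg h3] at hab
          by_cases h4 : b = m
          · rw [if_pos h4] at hab
            omega
          · rw [if_neg h4] at hab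
            exact (Fintype.equivFin T).injective (Fin.ext (by omega))
  refine ⟨Fintype.card T + 2 + (Finset.univ.sup e + 1),
    (Finset.univ.filter fun q : T × T => H q.1 q.2).image fun q => (e q.1, e q.2),
    (Finset.univ.filter fun q : T × T => V q.1 q.2).image fun q => (e q.1, e q.2), ?_⟩
  intro n
  rw [h n]
  constructor
  · rintro ⟨D, h1, h2, h3, h4⟩
    refine ⟨fun i j => e (D i j), fun i j => ?_, by simp only [h1, hes],
      by simp only [h2, hem], ?_, ?_⟩
    · have := Finset.le_sup (f := e) (Finset.mem_univ (D i j))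
      dsimp only
      omega
    · intro i j
      simp only [Finset.mem_image, Finset.mem_filter, Finset.mem_univ, true_and]
      exact ⟨(D i j, D (i + 1) j), h3 i j, rfl⟩
    · intro i j
      simp only [Finset.mem_image, Finset.mem_filter, Finset.mem_univ, true_and]
      exact ⟨(D i j, D i (j + 1)), h4 i j, rfl⟩
  · rintro ⟨D, -, h1, h2, h3, h4⟩
    simp only [Finset.mem_image, Finset.mem_filter, Finset.mem_univ, true_and, Prod.exists,
      Prod.mk.injEq] at h3 h4
    have hex : ∀ i j, ∃ t, e t = D i j := by
      intro i j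
      obtain ⟨a, b, -, ha, -⟩ := h3 i j
      exact ⟨a, ha⟩
    choose E hE using hex
    refine ⟨E, he (by rw [hE, h1, hes]), he (by rw [hE, h2, hem]), ?_, ?_⟩
    · intro i j
      obtain ⟨a, b, hab, ha, hb⟩ := h3 i j
      rwa [he (ha.trans (hE i j).symm), he (hb.trans (hE (i + 1) j).symm)] at hab
    · intro i j
      obtain ⟨a, b, hab, ha, hb⟩ := h4 i j
      rwa [he (ha.trans (hE i j).symm), he (hb.trans (hE i (j + 1)).symm)] at hab

/-- An r.e. set that is not computable. -/
theorem exists_re_not_computable : ∃ p : ℕ → Prop, REPred p ∧ ¬ ComputablePred p := by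
  have h0 := ComputablePred.halting_problem 0
  have hre : REPred fun c : Nat.Partrec.Code => (c.eval 0).Dom := ComputablePred.halting_problem_re 0
  refine ⟨fun n => ((Denumerable.ofNat Nat.Partrec.Code n).eval 0).Dom, ?_, ?_⟩
  · have := hre
    unfold REPred at this ⊢
    exact Partrec.comp this (Computable.ofNat Nat.Partrec.Code)
  · intro h
    refine h0 ?_
    refine (ComputablePred.of_eq (ComputablePred.computable_iff.mpr ?_) fun c => Iff.rfl)
    obtain ⟨f, hf, hfe⟩ := ComputablePred.computable_iff.mp h
    refine ⟨fun c => f (Encodable.encode c), hf.comp Computable.encode, ?_⟩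
    funext c
    have := congrFun hfe (Encodable.encode c)
    simp only [Denumerable.ofNat_encode] at this
    exact this

end Pool.Agent.H78.Dom
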