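import Pool.Agent.H83.CounterMachine

/-!
# The seeded domino problem on the quadrant

For every recursively enumerable set `p` of natural numbers there is a fixed finite set of tiles,
with fixed horizontal and vertical adjacency rules, such that `n ∈ p` iff the quadrant has no
tiling with the tile `0` at `(0, 0)` and the tile `1` at `(n + 1, 0)`.
-/

set_option autoImplicit false

namespace Pool.Agent.H78.Dom

open Function Pool.Agent.H83

/-- The normal tiles: flag of the column `0`, state, and for each counter three bits (left, own,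
right). -/
abbrev Nor (N R : ℕ) : Type := Bool × Fin N × (Fin R → Bool × Bool × Bool)

/-- Tiles: `inl 0` is the seed, `inl 1` the end mark of the input, `inl 2` is between them, and
`inl 3` is blank. -/
abbrev Tl (N R : ℕ) : Type := Fin 4 ⊕ Nor N R

/-- Horizontal adjacency in the first row. -/
def HI (a b : Fin 4) : Prop :=
  (a = 0 ∧ (b = 1 ∨ b = 2)) ∨ (a = 1 ∧ b = 3) ∨ (a = 2 ∧ (b = 1 ∨ b = 2)) ∨ (a = 3 ∧ b = 3)

instance (a b : Fin 4) : Decidable (HI a b) := by
  unfold HI
  infer_instance

theorem HI0 : ∀ b, HI 0 b → b = 1 ∨ b = 2 := by decide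
theorem HI1 : ∀ b, HI 1 b → b = 3 := by decide
theorem HI2 : ∀ b, HI 2 b → b = 1 ∨ b = 2 := by decide
theorem HI3 : ∀ b, HI 3 b → b = 3 := by decide

/-- Horizontal adjacency. -/
def Hr {N R : ℕ} : Tl N R → Tl N R → Prop
  | .inl a, .inl b => HI a b
  | .inr s, .inr t => t.1 = false ∧ s.2.1 = t.2.1 ∧
      ∀ r, (t.2.2 r).1 = (s.2.2 r).2.1 ∧ (s.2.2 r).2.2 = (t.2.2 r).2.1
  | _, _ => False

/-- The tile `t` is above the normal tile `s`. -/
def Step {N R : ℕ} (ins : ℕ → Instr) (s t : Nor N R) : Prop :=
  match ins s.2.1 with
  | .halt => False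
  | .goto q => (s.1 = true → (t.2.1 : ℕ) = q) ∧ ∀ r, (t.2.2 r).2.1 = (s.2.2 r).2.1
  | .inc k q => (s.1 = true → (t.2.1 : ℕ) = q) ∧
      ∀ r, (t.2.2 r).2.1 = if (r : ℕ) = k then (s.2.2 r).1 else (s.2.2 r).2.1
  | .jz k q₀ q₁ => (s.1 = true → ∀ r : Fin R, (r : ℕ) = k →
        (t.2.1 : ℕ) = if (s.2.2 r).2.1 = true then q₁ else q₀) ∧
      ∀ r, (t.2.2 r).2.1 = if (r : ℕ) = k then (s.2.2 r).2.2 else (s.2.2 r).2.1

/-- Vertical adjacency. -/
def Vr {N R : ℕ} (ins : ℕ → Instr) (q₀ : ℕ) : Tl N R → Tl N R → Prop
  | .inl a, .inr t => (t.1 = true ↔ a = 0) ∧ (a = 0 → (t.2.1 : ℕ) = q₀) ∧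
      ∀ r : Fin R, (t.2.2 r).1 = true ↔ a = 0 ∨ (a = 2 ∧ (r : ℕ) = 0)
  | .inr s, .inr t => t.1 = s.1 ∧ (t.1 = true → ∀ r, (t.2.2 r).1 = true) ∧ Step ins s t
  | _, _ => False

/-- The row `j + 1` of the tiling. -/
def rowOf {N R : ℕ} (q : Fin N) (c : ℕ → ℕ) (i : ℕ) : Nor N R :=
  (decide (i = 0), q, fun r => (decide (i = 0 ∨ i - 1 < c r), decide (i < c r),
    decide (i + 1 < c r)))

/-- A seeded tiling. -/
def IsTiling {N R : ℕ} (ins : ℕ → Instr) (q₀ : ℕ) (n : ℕ) (D : ℕ → ℕ → Tl N R) : Prop :=
  D 0 0 = .inl 0 ∧ D (n + 1) 0 = .inl 1 ∧ (∀ i j, Hr (D i j) (D (i + 1) j)) ∧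
    ∀ i j, Vr ins q₀ (D i j) (D i (j + 1))

theorem row_zero {N R : ℕ} {ins : ℕ → Instr} {q₀ n : ℕ} {D : ℕ → ℕ → Tl N R}
    (h : IsTiling ins q₀ n D) (i : ℕ) :
    D i 0 = .inl (if i = 0 then 0 else if i ≤ n then 2 else if i = n + 1 then 1 else 3) := by
  obtain ⟨h0, h1, hH, hV⟩ := h
  -- all are init tiles
  have hin : ∀ i, ∃ a, D i 0 = .inl a := by
    intro i
    induction i with
    | zero => exact ⟨0, h0⟩
    | succ i ih =>
      obtain ⟨a, ha⟩ := ih
      have := hH i 0
      rw [ha] at this
      rcases hD : D (i + 1) 0 with b | b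
      · exact ⟨b, rfl⟩
      · rw [hD] at this
        exact this.elim
  have hblank : ∀ i, D i 0 = .inl 3 → ∀ k, D (i + k) 0 = .inl 3 := by
    intro i hi k
    induction k with
    | zero => exact hi
    | succ k ih =>
      obtain ⟨b, hb⟩ := hin (i + k + 1)
      have := hH (i + k) 0
      rw [ih, hb] at this
      rw [← Nat.add_assoc, hb, HI3 b this]
  have hone : ∀ i, D i 0 = .inl 1 → D (i + 1) 0 = .inl 3 := by
    intro i hi
    obtain ⟨b, hb⟩ := hin (i + 1)
    have := hH i 0
    rw [hi, hb] at this
    rw [hb, HI1 b this]
  have hsecond : ∀ i, i ≤ n → i ≠ 0 → D i 0 = .inl 2 := by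
    intro i
    induction i with
    | zero => intro _ h; exact absurd rfl h
    | succ i ih =>
      intro hi _
      obtain ⟨b, hb⟩ := hin (i + 1)
      have h3 := hH i 0
      have h4 : b = 1 ∨ b = 2 := by
        rcases Nat.eq_zero_or_pos i with h5 | h5
        · subst h5
          rw [h0, hb] at h3
          exact HI0 b h3
        · rw [ih (by omega) (by omega), hb] at h3
          exact HI2 b h3
      rcases h4 with rfl | rfl
      · exfalso
        have h5 := hblank _ (hone _ hb) (n + 1 - (i + 2))
        rw [show i + 1 + 1 + (n + 1 - (i + 2)) = n + 1 by omega, h1] at h5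
        have := Sum.inl.inj h5
        exact absurd this (by decide)
      · exact hb
  rcases Nat.eq_zero_or_pos i with hi | hi
  · subst hi
    rw [h0]
    rfl
  · rw [if_neg (by omega)]
    rcases Nat.lt_trichotomy i (n + 1) with h2 | h2 | h2
    · rw [if_pos (by omega)]
      exact hsecond i (by omega) (by omega)
    · subst h2
      rw [if_neg (by omega), if_pos rfl, h1]
    · rw [if_neg (by omega), if_neg (by omega)]
      have h5 := hblank _ (hone _ h1) (i - (n + 2))
      rwa [show n + 1 + 1 + (i - (n + 2)) = i by omega] at h5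

/-- A row is determined by the column `0` and the own bits. -/
theorem row_of {N R : ℕ} {t : ℕ → Nor N R} {q : Fin N} {c : ℕ → ℕ}
    (hH : ∀ i, Hr (.inr (t i)) (.inr (t (i + 1)))) (hz : (t 0).1 = true) (hq : (t 0).2.1 = q)
    (hl : ∀ r, ((t 0).2.2 r).1 = true) (ho : ∀ i (r : Fin R), ((t i).2.2 r).2.1 = decide (i < c r))
    (i : ℕ) : t i = rowOf q c i := by
  have hst : ∀ i, (t i).2.1 = q := by
    intro i
    induction i with
    | zero => exact hq
    | succ i ih => rw [← (hH i).2.1, ih]
  have hfl : (t i).1 = decide (i = 0) := by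
    rcases i with _ | i
    · simp [hz]
    · simp [(hH i).1]
  refine Prod.ext hfl (Prod.ext (hst i) ?_)
  funext r
  refine Prod.ext ?_ (Prod.ext (ho i r) ?_)
  · rcases i with _ | i
    · simp [rowOf, hl]
    · rw [((hH i).2.2 r).1, ho i r]
      simp [rowOf]
  · rw [((hH i).2.2 r).2, ho (i + 1) r]
    simp [rowOf]

section Machine

variable {N R : ℕ} {ins : ℕ → Instr} {q₀ n : ℕ}

/-- The configurations of the machine. -/
def cfg (ins : ℕ → Instr) (q₀ n : ℕ) (j : ℕ) : ℕ × Regs := (mstep ins)^[j] (q₀, init n)

theorem cfg_succ (j : ℕ) : cfg ins q₀ n (j + 1) = mstep ins (cfg ins q₀ n j) := by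
  unfold cfg
  rw [iterate_succ_apply']

theorem row_one (hq₀ : q₀ < N) {D : ℕ → ℕ → Tl N R} (h : IsTiling ins q₀ n D) (i : ℕ) :
    D i 1 = .inr (rowOf ⟨q₀, hq₀⟩ (init n) i) := by
  have h0 := row_zero h
  obtain ⟨-, -, hH, hV⟩ := h
  have hr : ∀ i, ∃ t, D i 1 = .inr t := by
    intro i
    have h1 := hV i 0
    rw [h0 i] at h1
    rcases hD : D i (0 + 1) with a | t
    · rw [hD] at h1
      exact h1.elim
    · exact ⟨t, rfl⟩
  choose t ht using hr
  have hV' : ∀ i, Vr ins q₀ (.inl (if i = 0 then 0 else if i ≤ n then 2 else
      if i = n + 1 then 1 else 3)) (.inr (t i)) := by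
    intro i
    have h1 := hV i 0
    rw [h0 i, ht i] at h1
    exact h1
  have hH' : ∀ i, Hr (.inr (t i)) (.inr (t (i + 1))) := by
    intro i
    have h1 := hH i 1
    rwa [ht, ht] at h1
  have hleft : ∀ i (r : Fin R), ((t (i + 1)).2.2 r).1 = decide (i < init n r) := by
    intro i r
    have h1 := (hV' (i + 1)).2.2 r
    rw [Bool.eq_iff_iff, h1, decide_eq_true_iff]
    simp only [Nat.add_eq_zero_iff, one_ne_zero, and_false, if_false, init]
    by_cases hr : (r : ℕ) = 0
    · rw [hr, update_self]
      by_cases h2 : i + 1 ≤ n
      · simp only [if_pos h2]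
        simp only [and_true]
        constructor
        · intro _
          omega
        · intro _
          right
          trivial
      · rw [if_neg h2]
        constructor
        · intro h3
          exfalso
          revert h3
          split_ifs <;> decide
        · intro h3
          omega
    · rw [update_of_ne hr]
      constructor
      · rintro (h3 | ⟨-, h3⟩)
        · exfalso
          revert h3
          split_ifs <;> decide
        · exact absurd h3 hr
      · intro h3
        omega
  rw [ht, row_of (q := ⟨q₀, hq₀⟩) hH' (by simpa using (hV' 0).1)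
    (Fin.ext (by simpa using (hV' 0).2.1))
    (fun r => by simpa using (hV' 0).2.2 r) ?_ i]
  intro i r
  rw [← ((hH' i).2.2 r).1, hleft]

theorem row_step (hB : ∀ q < N, (ins q).Below N) (hR : ∀ q < N, (ins q).RegBelow R)
    {D : ℕ → ℕ → Tl N R} (h : IsTiling ins q₀ n D) (j : ℕ) {q : Fin N} {c : Regs}
    (hD : ∀ i, D i (j + 1) = .inr (rowOf q c i)) :
    ins q ≠ .halt ∧ ∃ hq : (mstep ins (q, c)).1 < N,
      ∀ i, D i (j + 2) = .inr (rowOf ⟨(mstep ins (q, c)).1, hq⟩ (mstep ins (q, c)).2 i) := by
  obtain ⟨-, -, hH, hV⟩ := h
  have hr : ∀ i, ∃ t, D i (j + 2) = .inr t := by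
    intro i
    have h1 := hV i (j + 1)
    rw [hD i] at h1
    rcases hD' : D i (j + 2) with a | t
    · rw [hD'] at h1
      exact h1.elim
    · exact ⟨t, rfl⟩
  choose t ht using hr
  have hV' : ∀ i, Vr ins q₀ (.inr (rowOf q c i)) (.inr (t i)) := by
    intro i
    have h1 := hV i (j + 1)
    rw [hD i, ht i] at h1
    exact h1
  have hH' : ∀ i, Hr (.inr (t i)) (.inr (t (i + 1))) := by
    intro i
    have h1 := hH i (j + 2)
    rwa [ht, ht] at h1
  have hz : (t 0).1 = true := by
    have := (hV' 0).1
    rw [this]
    simp [rowOf]
  have hl : ∀ r, ((t 0).2.2 r).1 = true := (hV' 0).2.1 hz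
  have hS : ∀ i, Step ins (rowOf q c i) (t i) := fun i => (hV' i).2.2
  have hBq := hB q q.2
  have hRq := hR q q.2
  have key : ins q ≠ .halt ∧ ((t 0).2.1 : ℕ) = (mstep ins (q, c)).1 ∧
      ∀ i (r : Fin R), ((t i).2.2 r).2.1 = decide (i < (mstep ins (q, c)).2 r) := by
    unfold Step at hS
    simp only [rowOf] at hS
    unfold mstep
    dsimp only
    cases hi : ins q with
    | halt =>
      rw [hi] at hS
      exact (hS 0).elim
    | goto q' =>
      rw [hi] at hS
      refine ⟨by simp, (hS 0).1 (by simp), fun i r => (hS i).2 r⟩
    | inc k q' =>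
      rw [hi] at hS
      refine ⟨by simp, (hS 0).1 (by simp), fun i r => ?_⟩
      rw [(hS i).2 r]
      dsimp only
      by_cases hk : (r : ℕ) = k
      · rw [if_pos hk]
        refine decide_eq_decide.mpr ?_
        rw [hk, update_self]
        omega
      · rw [if_neg hk]
        refine decide_eq_decide.mpr ?_
        rw [update_of_ne hk]
    | jz k q₁ q₂ =>
      rw [hi] at hS hRq
      have h1 := (hS 0).1 (by simp) ⟨k, hRq⟩ rfl
      refine ⟨by simp, ?_, fun i r => ?_⟩
      · rw [h1]
        simp only [decide_eq_true_eq]
        by_cases h0 : c k = 0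
        · rw [if_pos h0, if_neg (by omega)]
        · rw [if_neg h0, if_pos (by omega)]
      · rw [(hS i).2 r]
        dsimp only
        by_cases hk : (r : ℕ) = k
        · rw [if_pos hk]
          refine decide_eq_decide.mpr ?_
          rw [hk]
          by_cases h0 : c k = 0
          · rw [if_pos h0]
            dsimp only
            omega
          · rw [if_neg h0]
            dsimp only
            rw [update_self]
            omega
        · rw [if_neg hk]
          refine decide_eq_decide.mpr ?_
          by_cases h0 : c k = 0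
          · rw [if_pos h0]
          · rw [if_neg h0]
            dsimp only
            rw [update_of_ne hk]
  obtain ⟨k1, k2, k3⟩ := key
  have hlt : (mstep ins (q, c)).1 < N := by
    rw [← k2]
    exact (t 0).2.1.2
  refine ⟨k1, hlt, fun i => ?_⟩
  rw [ht, row_of (q := ⟨(mstep ins (q, c)).1, hlt⟩) hH' hz (Fin.ext k2) hl k3 i]

/-- A tiling exists iff the machine does not halt. -/
theorem tiling_iff (hq₀ : q₀ < N) (hB : ∀ q < N, (ins q).Below N)
    (hR : ∀ q < N, (ins q).RegBelow R) :
    (∃ D : ℕ → ℕ → Tl N R, IsTiling ins q₀ n D) ↔ ∀ j, ins (cfg ins q₀ n j).1 ≠ .halt := by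
  constructor
  · rintro ⟨D, h⟩
    have hrow : ∀ j, ∃ hq : (cfg ins q₀ n j).1 < N,
        ∀ i, D i (j + 1) = .inr (rowOf ⟨_, hq⟩ (cfg ins q₀ n j).2 i) := by
      intro j
      induction j with
      | zero => exact ⟨hq₀, row_one hq₀ h⟩
      | succ j ih =>
        obtain ⟨hq, hj⟩ := ih
        obtain ⟨-, h1, h2⟩ := row_step hB hR h j hj
        rw [cfg_succ]
        exact ⟨h1, h2⟩
    intro j
    obtain ⟨hq, hj⟩ := hrow j
    exact (row_step hB hR h j hj).1
  · intro hnh
    have hlt : ∀ j, (cfg ins q₀ n j).1 < N := by
      intro j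
      induction j with
      | zero => exact hq₀
      | succ j ih =>
        rw [cfg_succ]
        have h1 := hB _ ih
        unfold mstep
        cases hi : ins (cfg ins q₀ n j).1 with
        | halt => exact ih
        | goto q' =>
          rw [hi] at h1
          exact h1
        | inc k q' =>
          rw [hi] at h1
          exact h1
        | jz k q₁ q₂ =>
          rw [hi] at h1
          dsimp only
          split_ifs
          · exact h1.1
          · exact h1.2
    refine ⟨fun i j => if j = 0 then
      .inl (if i = 0 then 0 else if i ≤ n then 2 else if i = n + 1 then 1 else 3) else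
      .inr (rowOf ⟨_, hlt (j - 1)⟩ (cfg ins q₀ n (j - 1)).2 i), rfl, ?_, ?_, ?_⟩
    · simp
    · intro i j
      rcases j with _ | j
      · simp only [if_true, Hr]
        rcases Nat.lt_trichotomy i n with h | h | h
        · rw [if_neg (show i + 1 ≠ 0 by omega), if_pos (show i + 1 ≤ n by omega)]
          by_cases h0 : i = 0
          · rw [if_pos h0]
            decide
          · rw [if_neg h0, if_pos h.le]
            decide
        · rw [if_neg (show i + 1 ≠ 0 by omega), if_neg (show ¬ i + 1 ≤ n by omega),
            if_pos (show i + 1 = n + 1 by omega)]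
          by_cases h0 : i = 0
          · rw [if_pos h0]
            decide
          · rw [if_neg h0, if_pos h.le]
            decide
        · rw [if_neg (show i + 1 ≠ 0 by omega), if_neg (show ¬ i + 1 ≤ n by omega),
            if_neg (show ¬ i + 1 = n + 1 by omega), if_neg (show i ≠ 0 by omega),
            if_neg (show ¬ i ≤ n by omega)]
          split_ifs <;> decide
      · simp only [Nat.add_one_ne_zero, if_false, Nat.add_sub_cancel]
        refine ⟨by simp [rowOf], rfl, fun r => ⟨by simp [rowOf], by simp [rowOf]⟩⟩
    · intro i j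
      rcases j with _ | j
      · simp only [if_true, Nat.add_one_ne_zero, if_false, Nat.add_sub_cancel]
        refine ⟨?_, ?_, fun r => ?_⟩
        · simp only [rowOf, decide_eq_true_iff]
          by_cases h0 : i = 0
          · simp [h0]
          · simp only [h0, if_false, false_iff]
            split_ifs <;> decide
        · intro _
          rfl
        · simp only [rowOf, decide_eq_true_iff]
          by_cases h0 : i = 0
          · simp [h0]
          · simp only [h0, if_false, false_or]
            show (i - 1 < init n r) ↔ _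
            unfold init
            by_cases hr : (r : ℕ) = 0
            · rw [hr, update_self]
              by_cases h2 : i ≤ n
              · simp only [if_pos h2, and_true, or_true, iff_true]
                omega
              · rw [if_neg h2]
                constructor
                · intro h3
                  omega
                · intro h3
                  exfalso
                  revert h3
                  split_ifs <;> decide
            · rw [update_of_ne hr]
              constructor
              · intro h3
                omega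
              · rintro (h3 | ⟨-, h3⟩)
                · exfalso
                  revert h3
                  split_ifs <;> decide
                · exact absurd h3 hr
      · simp only [Nat.add_one_ne_zero, if_false, Nat.add_sub_cancel]
        have hRq := hR _ (hlt j)
        have hnj := hnh j
        refine ⟨rfl, fun h r => ?_, ?_⟩
        · simp only [rowOf, decide_eq_true_iff] at h ⊢
          exact Or.inl h
        · unfold Step
          simp only [rowOf]
          cases hi : ins (cfg ins q₀ n j).1 with
          | halt => exact absurd hi hnj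
          | goto q' =>
            simp only [cfg_succ, mstep, hi]
            simp
          | inc k q' =>
            simp only [cfg_succ, mstep, hi]
            refine ⟨fun _ => trivial, fun r => ?_⟩
            by_cases hk : (r : ℕ) = k
            · rw [if_pos hk]
              refine decide_eq_decide.mpr ?_
              rw [hk, update_self]
              omega
            · rw [if_neg hk]
              refine decide_eq_decide.mpr ?_
              rw [update_of_ne hk]
          | jz k q₁ q₂ =>
            simp only [cfg_succ, mstep, hi]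
            refine ⟨fun _ r hk => ?_, fun r => ?_⟩
            · have hi0 : i = 0 := by simpa using ‹decide (i = 0) = true›
              simp only [decide_eq_true_eq, hk]
              by_cases h0 : (cfg ins q₀ n j).2 k = 0
              · rw [if_pos h0, if_neg (by omega)]
              · rw [if_neg h0, if_pos (by omega)]
            · by_cases hk : (r : ℕ) = k
              · rw [if_pos hk]
                refine decide_eq_decide.mpr ?_
                rw [hk]
                by_cases h0 : (cfg ins q₀ n j).2 k = 0
                · rw [if_pos h0]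
                  dsimp only
                  omega
                · rw [if_neg h0]
                  dsimp only
                  rw [update_self]
                  omega
              · rw [if_neg hk]
                refine decide_eq_decide.mpr ?_
                by_cases h0 : (cfg ins q₀ n j).2 k = 0
                · rw [if_pos h0]
                · rw [if_neg h0]
                  dsimp only
                  rw [update_of_ne hk]

end Machine

end Pool.Agent.H78.Dom
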